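import Mathlib

/-!
Every continuous map from `C_p(K)` (`K` compact Hausdorff) into a normed space with its weak
topology is locally norm-bounded.
-/

set_option autoImplicit false

open Set Topology

namespace Pool.Agent.CpCw

/-- Interpolation on a finite set of a compact Hausdorff space. -/
theorem exists_interp {K : Type*} [TopologicalSpace K] [CompactSpace K] [T2Space K]
    (F : Finset K) (v : K → ℝ) : ∃ g : C(K, ℝ), ∀ a ∈ F, g a = v a := by
  have hF : IsClosed (F : Set K) := F.finite_toSet.isClosed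
  have : Finite (F : Set K) := F.finite_toSet
  have : DiscreteTopology (F : Set K) := inferInstance
  obtain ⟨g, hg⟩ := ContinuousMap.exists_restrict_eq hF
    (⟨fun x => v x.1, continuous_of_discreteTopology⟩ : C((F : Set K), ℝ))
  refine ⟨g, fun a ha => ?_⟩
  have := congrArg (fun h : C((F : Set K), ℝ) => h ⟨a, by simpa using ha⟩) hg
  exact this

/-- Flip a coordinate of a Boolean vector. -/
def flip {M : ℕ} (k : Fin M) (θ : Fin M → Bool) : Fin M → Bool := Function.update θ k (! θ k)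

theorem flip_flip {M : ℕ} (k : Fin M) (θ : Fin M → Bool) : flip k (flip k θ) = θ := by
  ext i
  by_cases h : i = k
  · subst h; simp [flip]
  · simp [flip, h]

theorem flip_bij {M : ℕ} (k : Fin M) : Function.Bijective (flip k) :=
  (Function.Involutive.bijective (flip_flip k))

/-- Counting lemma: if each vertex of the cube of dimension `M > 2 n` has at most `n` bad
directions then some edge has two ends for which its direction is not bad. -/
theorem exists_good_edge {M n : ℕ} (hM : 2 * n < M) (bad : (Fin M → Bool) → Finset (Fin M))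
    (hbad : ∀ θ, (bad θ).card ≤ n) :
    ∃ (θ : Fin M → Bool) (k : Fin M), k ∉ bad θ ∧ k ∉ bad (flip k θ) := by
  classical
  by_contra hcon
  push Not at hcon
  -- count pairs
  have h1 : ∀ (θ : Fin M → Bool) (k : Fin M),
      1 ≤ (if k ∈ bad θ then 1 else 0) + (if k ∈ bad (flip k θ) then 1 else 0 : ℕ) := by
    intro θ k
    by_cases h : k ∈ bad θ
    · simp [h]
    · simp [h, hcon θ k h]
  have h2 : ∑ k : Fin M, ∑ θ : Fin M → Bool, (1 : ℕ) ≤
      ∑ k : Fin M, ∑ θ : Fin M → Bool,
        ((if k ∈ bad θ then 1 else 0) + (if k ∈ bad (flip k θ) then 1 else 0 : ℕ)) :=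
    Finset.sum_le_sum fun k _ => Finset.sum_le_sum fun θ _ => h1 θ k
  have h3 : ∀ k : Fin M, ∑ θ : Fin M → Bool, (if k ∈ bad (flip k θ) then 1 else 0 : ℕ)
      = ∑ θ : Fin M → Bool, (if k ∈ bad θ then 1 else 0 : ℕ) := by
    intro k
    exact (flip_bij k).sum_comp (fun θ => (if k ∈ bad θ then 1 else 0 : ℕ))
  have h4 : ∑ k : Fin M, ∑ θ : Fin M → Bool,
        ((if k ∈ bad θ then 1 else 0) + (if k ∈ bad (flip k θ) then 1 else 0 : ℕ))
      = 2 * ∑ θ : Fin M → Bool, (bad θ).card := by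
    simp_rw [Finset.sum_add_distrib, h3]
    rw [Finset.sum_comm, ← two_mul]
    congr 1
    refine Finset.sum_congr rfl fun θ _ => ?_
    simp
  have h5 : ∑ θ : Fin M → Bool, (bad θ).card ≤ ∑ θ : Fin M → Bool, n :=
    Finset.sum_le_sum fun θ _ => hbad θ
  rw [h4] at h2
  simp only [Finset.sum_const, Finset.card_univ, smul_eq_mul, mul_one, Fintype.card_fin] at h2 h5
  have hpos : 0 < Fintype.card (Fin M → Bool) := Fintype.card_pos
  have : M * Fintype.card (Fin M → Bool) ≤ 2 * (Fintype.card (Fin M → Bool) * n) := by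
    linarith [Nat.mul_le_mul_left 2 h5]
  have h6 : 2 * n * Fintype.card (Fin M → Bool) < M * Fintype.card (Fin M → Bool) :=
    Nat.mul_lt_mul_of_pos_right hM hpos
  nlinarith

variable {K : Type*} [TopologicalSpace K] [CompactSpace K] [T2Space K] [Nonempty K]
variable {E : Type*} [NormedAddCommGroup E] [NormedSpace ℝ E]

/-- Pointwise-to-weak continuity in epsilon-delta form. -/
def PtwWeakCont (φ : C(K, ℝ) → E) : Prop :=
  ∀ (y : E →L[ℝ] ℝ) (f : C(K, ℝ)) (ε : ℝ), 0 < ε →
    ∃ (A : Finset K) (δ : ℝ), 0 < δ ∧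
      ∀ g : C(K, ℝ), (∀ a ∈ A, |g a - f a| < δ) → |y (φ g) - y (φ f)| < ε

/-- The closed sets used in the Baire category argument. -/
def Tset (φ : C(K, ℝ) → E) (n : ℕ) : Set (E →L[ℝ] ℝ) :=
  {y | ∃ a : Fin (n + 1) → K, ∀ f : C(K, ℝ), (∀ i, |f (a i)| < 1 / ((n : ℝ) + 1)) →
    |y (φ f - φ 0)| ≤ 1}

theorem isClosed_Tset (φ : C(K, ℝ) → E) (n : ℕ) : IsClosed (Tset φ n) := by
  have h : Tset φ n = Prod.fst '' {p : (E →L[ℝ] ℝ) × (Fin (n + 1) → K) |
      ∀ f : C(K, ℝ), (∀ i, |f (p.2 i)| < 1 / ((n : ℝ) + 1)) → |p.1 (φ f - φ 0)| ≤ 1} := by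
    ext y
    simp [Tset]
  rw [h]
  apply isClosedMap_fst_of_compactSpace
  have : {p : (E →L[ℝ] ℝ) × (Fin (n + 1) → K) |
      ∀ f : C(K, ℝ), (∀ i, |f (p.2 i)| < 1 / ((n : ℝ) + 1)) → |p.1 (φ f - φ 0)| ≤ 1}
      = ⋂ f : C(K, ℝ), ((⋃ i : Fin (n + 1), {p | 1 / ((n : ℝ) + 1) ≤ |f (p.2 i)|}) ∪
          {p | |p.1 (φ f - φ 0)| ≤ 1}) := by
    ext p
    simp only [mem_ofPred_eq, mem_iInter, mem_union, mem_iUnion]
    refine forall_congr' fun f => ?_
    constructor
    · intro hh
      by_cases hc : ∀ i, |f (p.2 i)| < 1 / ((n : ℝ) + 1)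
      · exact Or.inr (hh hc)
      · push Not at hc
        exact Or.inl hc
    · rintro (⟨i, hi⟩ | hh) hc
      · exact absurd (hc i) (not_lt.mpr hi)
      · exact hh
  rw [this]
  refine isClosed_iInter fun f => ?_
  refine IsClosed.union ?_ ?_
  · refine isClosed_iUnion_of_finite fun i => ?_
    exact isClosed_le continuous_const
      ((f.continuous.comp ((continuous_apply i).comp continuous_snd)).abs)
  · refine isClosed_le ?_ continuous_const
    refine Continuous.abs ?_
    exact (ContinuousLinearMap.apply ℝ ℝ (φ f - φ 0)).continuous.comp continuous_fst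

theorem iUnion_Tset (φ : C(K, ℝ) → E) (hφ : PtwWeakCont φ) : ⋃ n, Tset φ n = univ := by
  classical
  refine eq_univ_of_forall fun y => ?_
  obtain ⟨A, δ, hδ, hA⟩ := hφ y 0 1 one_pos
  obtain ⟨n1, hn1⟩ := exists_nat_gt (1 / δ)
  set n := max n1 A.card with hn
  rw [mem_iUnion]
  refine ⟨n, ?_⟩
  -- enumerate A
  obtain ⟨x0⟩ := (inferInstance : Nonempty K)
  let e : Fin A.card ≃ A := (Finset.equivFin A).symm
  refine ⟨fun i => if h : (i : ℕ) < A.card then (e ⟨i, h⟩ : K) else x0, fun f hf => ?_⟩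
  have hlt : ∀ a ∈ A, |f a - (0 : C(K, ℝ)) a| < δ := by
    intro a ha
    have hi := hf ⟨(e.symm ⟨a, ha⟩ : Fin A.card), by
      have := (e.symm ⟨a, ha⟩).2
      omega⟩
    have h2 : ((e.symm ⟨a, ha⟩ : Fin A.card) : ℕ) < A.card := (e.symm ⟨a, ha⟩).2
    simp only [h2, dif_pos] at hi
    have h3 : (e ⟨((e.symm ⟨a, ha⟩ : Fin A.card) : ℕ), h2⟩ : K) = a := by
      have : (⟨((e.symm ⟨a, ha⟩ : Fin A.card) : ℕ), h2⟩ : Fin A.card) = e.symm ⟨a, ha⟩ := rfl
      rw [this, Equiv.apply_symm_apply]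
    rw [h3] at hi
    have h4 : 1 / ((n : ℝ) + 1) < δ := by
      have h5 : (n1 : ℝ) ≤ n := by exact_mod_cast le_max_left _ _
      rw [div_lt_iff₀ (by positivity)]
      rw [div_lt_iff₀ hδ] at hn1
      nlinarith
    simpa using lt_trans hi h4
  have := hA f hlt
  rw [map_sub]
  exact this.le

/-- **Local boundedness.** A map from `C_p(K)` to a normed space that is continuous for the weak
topology is norm-bounded on a neighbourhood of `0`. -/
theorem locally_bounded (φ : C(K, ℝ) → E) (hφ : PtwWeakCont φ) :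
    ∃ (A : Finset K) (δ N : ℝ), 0 < δ ∧
      ∀ f : C(K, ℝ), (∀ a ∈ A, |f a| < δ) → ‖φ f - φ 0‖ ≤ N := by
  classical
  by_contra hneg
  push Not at hneg
  -- Baire
  obtain ⟨n, y0, hy0⟩ := nonempty_interior_of_iUnion_of_closed (isClosed_Tset φ)
    (iUnion_Tset φ hφ)
  obtain ⟨r, hr, hball⟩ := Metric.isOpen_iff.1 isOpen_interior y0 hy0
  have hball' : Metric.ball y0 r ⊆ Tset φ n := hball.trans interior_subset
  set δ0 : ℝ := 1 / ((n : ℝ) + 1) with hδ0
  have hδ0pos : 0 < δ0 := by positivity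
  set M : ℕ := 2 * (n + 1) + 1 with hM
  have hMpos : (0 : ℝ) < M := by exact_mod_cast Nat.succ_pos _
  set c : ℝ := r / (2 * M) with hc
  have hcpos : 0 < c := by positivity
  set N : ℝ := 2 / c with hN
  -- one step
  have step : ∀ B : Finset K, ∃ (f : C(K, ℝ)) (x : E →L[ℝ] ℝ) (A : Finset K),
      (∀ b ∈ B, |f b| < δ0) ∧ ‖x‖ ≤ 1 ∧
      ∀ g : C(K, ℝ), (∀ a ∈ A, g a = f a) → N < |x (φ g - φ 0)| := by
    intro B
    obtain ⟨f, hfB, hfN⟩ := hneg B δ0 N hδ0pos
    have hne : φ f - φ 0 ≠ 0 := by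
      intro h0
      rw [h0, norm_zero] at hfN
      have : (0 : ℝ) < N := by positivity
      linarith
    obtain ⟨x, hx1, hx2⟩ := exists_dual_vector ℝ (φ f - φ 0) (norm_ne_zero_iff.2 hne)
    obtain ⟨A, δ, hδ, hA⟩ := hφ x f (‖φ f - φ 0‖ - N) (by linarith)
    refine ⟨f, x, A, hfB, hx1.le, fun g hg => ?_⟩
    have h1 := hA g (fun a ha => by rw [hg a ha]; simpa using hδ)
    have h2 : x (φ f - φ 0) = ‖φ f - φ 0‖ := by simpa using hx2
    have h3 : x (φ g - φ 0) = x (φ f - φ 0) + (x (φ g) - x (φ f)) := by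
      simp only [map_sub]; ring
    have h4 := (abs_lt.1 h1).1
    have h5 : N < x (φ g - φ 0) := by rw [h3, h2]; linarith
    exact lt_of_lt_of_le h5 (le_abs_self _)
  choose fF xF AF hfB hx1 hA using step
  -- the increasing finite sets
  let B : ℕ → Finset K := fun k => Nat.rec ∅ (fun _ b => b ∪ AF b) k
  have hB0 : B 0 = ∅ := rfl
  have hBs : ∀ k, B (k + 1) = B k ∪ AF (B k) := fun k => rfl
  have hBmono : Monotone B := monotone_nat_of_le_succ fun k => by
    rw [hBs]; exact Finset.subset_union_left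
  let A' : ℕ → Finset K := fun k => AF (B k) \ B k
  have hdisj : ∀ j k : ℕ, j < k → Disjoint (A' j) (A' k) := by
    intro j k hjk
    rw [Finset.disjoint_left]
    intro a haj hak
    have h1 : a ∈ B (j + 1) := by
      rw [hBs]
      exact Finset.mem_union_right _ (Finset.mem_sdiff.1 haj).1
    have h2 : a ∈ B k := hBmono (Nat.succ_le_of_lt hjk) h1
    exact (Finset.mem_sdiff.1 hak).2 h2
  -- the functionals
  let yθ : (Fin M → Bool) → (E →L[ℝ] ℝ) := fun θ =>
    y0 + ∑ k : Fin M, (if θ k then c else 0) • xF (B k)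
  have hyθ : ∀ θ, yθ θ ∈ Tset φ n := by
    intro θ
    apply hball'
    rw [Metric.mem_ball, dist_eq_norm]
    have h1 : yθ θ - y0 = ∑ k : Fin M, (if θ k then c else 0) • xF (B k) := by
      simp [yθ]
    rw [h1]
    calc ‖∑ k : Fin M, (if θ k then c else 0) • xF (B k)‖
        ≤ ∑ k : Fin M, ‖(if θ k then c else 0) • xF (B k)‖ := norm_sum_le _ _
      _ ≤ ∑ k : Fin M, c := by
          refine Finset.sum_le_sum fun k _ => ?_
          rw [norm_smul]
          have h2 : ‖(if θ k then c else 0 : ℝ)‖ ≤ c := by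
            split_ifs
            · rw [Real.norm_eq_abs, abs_of_pos hcpos]
            · simpa using hcpos.le
          calc ‖(if θ k then c else 0 : ℝ)‖ * ‖xF (B k)‖ ≤ c * 1 :=
                mul_le_mul h2 (hx1 _) (norm_nonneg _) hcpos.le
            _ = c := mul_one c
      _ = M * c := by simp
      _ < r := by
          rw [hc]
          have : (M : ℝ) * (r / (2 * M)) = r / 2 := by field_simp
          rw [this]; linarith
  choose a ha using hyθ
  -- the bad directions
  let bad : (Fin M → Bool) → Finset (Fin M) := fun θ =>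
    Finset.univ.filter fun k => ∃ i, a θ i ∈ A' k
  have hbad : ∀ θ, (bad θ).card ≤ n + 1 := by
    intro θ
    -- injection from bad directions into Fin (n+1)
    have hch : ∀ k : bad θ, ∃ i, a θ i ∈ A' (k : Fin M) := fun k =>
      (Finset.mem_filter.1 k.2).2
    choose i hi using hch
    have hinj : Function.Injective i := by
      intro k l hkl
      by_contra hne
      have hne' : ((k : Fin M) : ℕ) ≠ ((l : Fin M) : ℕ) := by
        intro h
        exact hne (Subtype.ext (Fin.ext h))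
      have h1 := hi k
      have h2 := hi l
      rw [hkl] at h1
      rcases lt_or_gt_of_ne hne' with h | h
      · exact Finset.disjoint_left.1 (hdisj _ _ h) h1 h2
      · exact Finset.disjoint_left.1 (hdisj _ _ h) h2 h1
    have := Fintype.card_le_of_injective i hinj
    simpa using this
  obtain ⟨θ, k, hk1, hk2⟩ := exists_good_edge (n := n + 1) (M := M) (by omega) bad hbad
  set θ' := flip k θ with hθ'
  have hk1' : ∀ i, a θ i ∉ A' k := by
    intro i hi
    exact hk1 (Finset.mem_filter.2 ⟨Finset.mem_univ _, i, hi⟩)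
  have hk2' : ∀ i, a θ' i ∉ A' k := by
    intro i hi
    exact hk2 (Finset.mem_filter.2 ⟨Finset.mem_univ _, i, hi⟩)
  -- the test function
  set Ak := AF (B k) with hAk
  obtain ⟨g, hg⟩ := exists_interp (Ak ∪ (Finset.univ.image (a θ) ∪ Finset.univ.image (a θ')))
    (fun t => if t ∈ Ak then fF (B k) t else 0)
  have hgA : ∀ t ∈ Ak, g t = fF (B k) t := by
    intro t ht
    rw [hg t (Finset.mem_union_left _ ht), if_pos ht]
  have hgsmall : ∀ t, t ∈ Finset.univ.image (a θ) ∪ Finset.univ.image (a θ') → t ∉ A' k →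
      |g t| < δ0 := by
    intro t ht htA
    rw [hg t (Finset.mem_union_right _ ht)]
    split_ifs with h
    · have : t ∈ B k := by
        by_contra hnB
        exact htA (Finset.mem_sdiff.2 ⟨h, hnB⟩)
      exact hfB _ t this
    · simpa using hδ0pos
  have h1 : |yθ θ (φ g - φ 0)| ≤ 1 := by
    refine ha θ g fun i => ?_
    exact hgsmall _ (Finset.mem_union_left _ (Finset.mem_image_of_mem _ (Finset.mem_univ _)))
      (hk1' i)
  have h2 : |yθ θ' (φ g - φ 0)| ≤ 1 := by
    refine ha θ' g fun i => ?_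
    exact hgsmall _ (Finset.mem_union_right _ (Finset.mem_image_of_mem _ (Finset.mem_univ _)))
      (hk2' i)
  have h3 : N < |xF (B k) (φ g - φ 0)| := hA (B k) g hgA
  -- difference
  have h4 : |yθ θ (φ g - φ 0) - yθ θ' (φ g - φ 0)| = c * |xF (B k) (φ g - φ 0)| := by
    have h5 : ∀ η : Fin M → Bool, yθ η (φ g - φ 0)
        = y0 (φ g - φ 0) + ∑ j : Fin M, (if η j then c else 0) * xF (B j) (φ g - φ 0) := by
      intro η
      change (y0 + ∑ k : Fin M, (if η k then c else 0) • xF (B k)) (φ g - φ 0) = _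
      rw [ContinuousLinearMap.add_apply, ContinuousLinearMap.sum_apply]
      rfl
    rw [h5 θ, h5 θ', add_sub_add_left_eq_sub, ← Finset.sum_sub_distrib]
    rw [Finset.sum_eq_single k]
    · rw [← sub_mul, abs_mul]
      congr 1
      have h6 : θ' k = ! θ k := by simp [hθ', flip]
      rw [h6]
      cases θ k <;> simp [abs_of_pos hcpos]
    · intro j _ hj
      have h6 : θ' j = θ j := by simp [hθ', flip, hj]
      rw [h6, sub_self]
    · intro h; exact absurd (Finset.mem_univ _) h
  have h5 : |yθ θ (φ g - φ 0) - yθ θ' (φ g - φ 0)| ≤ 2 := by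
    have := abs_sub (yθ θ (φ g - φ 0)) (yθ θ' (φ g - φ 0))
    linarith
  rw [h4] at h5
  have h6 : c * N < c * |xF (B k) (φ g - φ 0)| := mul_lt_mul_of_pos_left h3 hcpos
  have h7 : c * N = 2 := by rw [hN]; field_simp
  linarith

end Pool.Agent.CpCw
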