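import Pool.Agent.Lib.MP_d691669a_an.LocBdd

set_option autoImplicit false

open Set Topology Filter

namespace Pool.Agent.CpCw

/-- Neighbourhoods in the topology generated by a family of real functions. -/
theorem exists_finset_of_mem_nhds {X ι : Type*} (F : ι → X → ℝ) (x : X) (U : Set X)
    (hU : U ∈ @nhds X (⨅ i, TopologicalSpace.induced (F i) (inferInstance : TopologicalSpace ℝ)) x) :
    ∃ (I : Finset ι) (δ : ℝ), 0 < δ ∧ ∀ z, (∀ i ∈ I, |F i z - F i x| < δ) → z ∈ U := by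
  classical
  rw [nhds_iInf, Filter.mem_iInf] at hU
  obtain ⟨I, hI, V, hV, rfl⟩ := hU
  have h1 : ∀ i : I, ∃ δ : ℝ, 0 < δ ∧ ∀ z, |F i z - F i x| < δ → z ∈ V i := by
    intro i
    have := hV i
    rw [nhds_induced, Filter.mem_comap] at this
    obtain ⟨W, hW, hWV⟩ := this
    obtain ⟨δ, hδ, hball⟩ := Metric.mem_nhds_iff.1 hW
    refine ⟨δ, hδ, fun z hz => hWV (hball ?_)⟩
    rw [Metric.mem_ball, Real.dist_eq]
    exact hz
  choose δ hδ hδV using h1
  haveI := hI.fintype
  rcases isEmpty_or_nonempty I with hE | hne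
  · exact ⟨∅, 1, one_pos, fun z _ => mem_iInter.2 fun i => (hE.false i).elim⟩
  · refine ⟨hI.toFinset, Finset.univ.inf' ⟨Classical.arbitrary I, Finset.mem_univ _⟩ δ, ?_, ?_⟩
    · rw [Finset.lt_inf'_iff]
      exact fun i _ => hδ i
    · intro z hz
      refine mem_iInter.2 fun i => hδV i z ?_
      exact lt_of_lt_of_le (hz i (by simp)) (Finset.inf'_le _ (Finset.mem_univ i))

theorem mem_nhds_of_finset {X ι : Type*} (F : ι → X → ℝ) (x : X) (I : Finset ι) (δ : ℝ)
    (hδ : 0 < δ) :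
    {z | ∀ i ∈ I, |F i z - F i x| < δ} ∈
      @nhds X (⨅ i, TopologicalSpace.induced (F i) (inferInstance : TopologicalSpace ℝ)) x := by
  classical
  have h : {z | ∀ i ∈ I, |F i z - F i x| < δ} = ⋂ i ∈ I, {z | |F i z - F i x| < δ} := by
    ext z; simp
  rw [h, Filter.biInter_finset_mem]
  intro i _
  rw [nhds_iInf]
  refine Filter.mem_iInf_of_mem i ?_
  rw [nhds_induced, Filter.mem_comap]
  refine ⟨Metric.ball (F i x) δ, Metric.ball_mem_nhds _ hδ, fun z hz => ?_⟩
  simpa [Metric.mem_ball, Real.dist_eq] using hz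

/-- The topology of pointwise convergence on `C(K, ℝ)`. -/
abbrev ptTop (K : Type*) [TopologicalSpace K] : TopologicalSpace C(K, ℝ) :=
  ⨅ x : K, TopologicalSpace.induced (fun f : C(K, ℝ) => f x) (inferInstance : TopologicalSpace ℝ)

/-- The weak topology of a normed space. -/
abbrev wkTop (E : Type*) [NormedAddCommGroup E] [NormedSpace ℝ E] : TopologicalSpace E :=
  ⨅ φ : E →L[ℝ] ℝ, TopologicalSpace.induced (fun f : E => φ f)
    (inferInstance : TopologicalSpace ℝ)

variable {K : Type*} [TopologicalSpace K] [CompactSpace K] [T2Space K]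
variable {E : Type*} [NormedAddCommGroup E] [NormedSpace ℝ E]

theorem ptwWeakCont_of_continuous (e : C(K, ℝ) → E)
    (he : @Continuous C(K, ℝ) E (ptTop K) (wkTop E) e) : PtwWeakCont e := by
  intro y f ε hε
  have h1 := he
  rw [continuous_iInf_rng] at h1
  have h2 := h1 y
  rw [continuous_induced_rng] at h2
  have h3 := (@continuous_iff_continuousAt _ _ (ptTop K) _ _).1 h2 f
  have h4 : {g : C(K, ℝ) | |y (e g) - y (e f)| < ε} ∈ @nhds _ (ptTop K) f := by
    have h5 := h3 (Metric.ball_mem_nhds _ hε)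
    refine Filter.mem_of_superset h5 fun g hg => ?_
    simpa [Metric.mem_ball, Real.dist_eq] using hg
  obtain ⟨A, δ, hδ, hA⟩ := exists_finset_of_mem_nhds _ _ _ h4
  exact ⟨A, δ, hδ, fun g hg => hA g hg⟩

theorem exists_ker (hE : ¬ FiniteDimensional ℝ E) (I : Finset (E →L[ℝ] ℝ)) :
    ∃ v : E, v ≠ 0 ∧ ∀ y ∈ I, y v = 0 := by
  by_contra hcon
  push Not at hcon
  apply hE
  let L : E →ₗ[ℝ] (I → ℝ) := LinearMap.pi fun y => (y.1 : E →ₗ[ℝ] ℝ)
  have hinj : Function.Injective L := by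
    rw [injective_iff_map_eq_zero]
    intro v hv
    by_contra hv0
    obtain ⟨y, hy, hyv⟩ := hcon v hv0
    exact hyv (congrFun hv ⟨y, hy⟩)
  exact FiniteDimensional.of_injective L hinj

/-- No space `C_p(K)`, `K` compact Hausdorff and nonempty, is homeomorphic to an
infinite-dimensional normed space with its weak topology. -/
theorem not_homeo [Nonempty K] (hE : ¬ FiniteDimensional ℝ E) :
    ¬ ∃ e : C(K, ℝ) ≃ E, @Continuous C(K, ℝ) E (ptTop K) (wkTop E) e ∧
      @Continuous E C(K, ℝ) (wkTop E) (ptTop K) e.symm := by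
  rintro ⟨e, he, hes⟩
  obtain ⟨A, δ, N, hδ, hA⟩ := locally_bounded e (ptwWeakCont_of_continuous e he)
  have h0 : e.symm (e 0) = 0 := e.symm_apply_apply 0
  have h1 : {f : C(K, ℝ) | ∀ a ∈ A, |f a - (0 : C(K, ℝ)) a| < δ} ∈ @nhds _ (ptTop K) 0 :=
    mem_nhds_of_finset (fun (x : K) (f : C(K, ℝ)) => f x) 0 A δ hδ
  have h2 := (@continuous_iff_continuousAt _ _ (wkTop E) (ptTop K) _).1 hes (e 0)
  have h3 : e.symm ⁻¹' {f : C(K, ℝ) | ∀ a ∈ A, |f a - (0 : C(K, ℝ)) a| < δ} ∈
      @nhds _ (wkTop E) (e 0) := by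
    apply h2
    rw [h0]
    exact h1
  obtain ⟨I, δ', hδ', hI⟩ := exists_finset_of_mem_nhds _ _ _ h3
  obtain ⟨v, hv, hvI⟩ := exists_ker hE I
  have h4 : ∀ t : ℝ, ‖t • v‖ ≤ N := by
    intro t
    have h5 : e 0 + t • v ∈ e.symm ⁻¹' {f : C(K, ℝ) | ∀ a ∈ A, |f a - (0 : C(K, ℝ)) a| < δ} := by
      apply hI
      intro y hy
      have h6 := hvI y hy
      have h7 : y (e 0 + t • v) - y (e 0) = 0 := by
        rw [map_add, map_smul, h6]; simp
      rw [h7, abs_zero]
      exact hδ'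
    have h8 := hA (e.symm (e 0 + t • v)) (fun a ha => by simpa using h5 a ha)
    rw [e.apply_symm_apply, add_sub_cancel_left] at h8
    exact h8
  have hvpos : 0 < ‖v‖ := norm_pos_iff.2 hv
  have h9 := h4 ((|N| + 1) / ‖v‖)
  rw [norm_smul, Real.norm_eq_abs, abs_of_pos (by positivity), div_mul_cancel₀ _ hvpos.ne'] at h9
  linarith [le_abs_self N]

/-- `C(K)` is infinite-dimensional for `K` infinite compact Hausdorff. -/
theorem not_finiteDimensional [Infinite K] : ¬ FiniteDimensional ℝ C(K, ℝ) := by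
  classical
  intro hfd
  obtain ⟨F, hF⟩ := Infinite.exists_superset_card_eq (∅ : Finset K)
    (Module.finrank ℝ C(K, ℝ) + 1) (by simp)
  let L : C(K, ℝ) →ₗ[ℝ] (F → ℝ) :=
    { toFun := fun f x => f x
      map_add' := fun f g => rfl
      map_smul' := fun c f => rfl }
  have hL : Function.Surjective L := by
    intro w
    obtain ⟨g, hg⟩ := exists_interp F (fun x => if h : x ∈ F then w ⟨x, h⟩ else 0)
    refine ⟨g, funext fun x => ?_⟩
    change g x = w x
    rw [hg x x.2]
    simp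
  have h1 := LinearMap.finrank_le_finrank_of_surjective hL
  rw [Module.finrank_pi, Fintype.card_coe, hF.2] at h1
  omega

end Pool.Agent.CpCw
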